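import Pool.Agent.MP_db5b97_nt.H31.SpecT
import Pool.Agent.MP_db5b97_nt.H85.All

/-! The norm theorem for a cyclic extension generated by a root of unity. -/

namespace Pool.Agent.MP_db5b97_nt.H16

open NumberField IsDedekindDomain Pool.Agent.MP_db5b97_nt.H85 Pool.Agent.MP_db5b97_nt.H31

namespace HA3a

section Alg

variable {G A : Type} [Group G] [AddCommGroup A] [DistribMulAction G A]

theorem Nm_df (σ : G) (n : ℕ) (x : A) : Nm σ n (σ • x - x) = σ ^ n • x - x := by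
  induction n with
  | zero => simp [Nm_apply]
  | succ n ih =>
    rw [Nm_apply, Finset.sum_range_succ, ← Nm_apply, ih, smul_sub, ← mul_smul, ← pow_succ]
    abel

theorem smul_Nm (s σ : G) (h : Commute s σ) (n : ℕ) (x : A) :
    s • Nm σ n x = Nm σ n (s • x) := by
  simp only [Nm_apply, Finset.smul_sum, smul_smul, (h.pow_right _).eq]

theorem Nm_mul (σ : G) (a b : ℕ) (x : A) : Nm σ (a * b) x = Nm σ a (Nm (σ ^ a) b x) := by
  induction b with
  | zero => simp [Nm_apply]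
  | succ b ih =>
    rw [Nm_apply (σ ^ a), Finset.sum_range_succ, map_add, ← Nm_apply, ← ih, mul_add, mul_one,
      Nm_apply, Finset.sum_range_add, ← Nm_apply, Nm_apply σ a]
    simp only [smul_smul, ← pow_mul, ← pow_add, add_comm]

theorem Nm_of_fix {σ : G} {x : A} (h : σ • x = x) (n : ℕ) : Nm σ n x = n • x := by
  have : ∀ i : ℕ, σ ^ i • x = x := fun i => pow_mem (show σ ∈ MulAction.stabilizer G x from h) i
  simp [Nm_apply, this]

theorem Nm_cong (S : AddSubgroup A) (σ : G) (x : A) (h : ∀ i : ℕ, σ ^ i • x - x ∈ S) (n : ℕ) :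
    Nm σ n x - n • x ∈ S := by
  have := sum_mem fun i (_ : i ∈ Finset.range n) => h i
  rwa [Finset.sum_sub_distrib, ← Nm_apply, Finset.sum_const, Finset.card_range] at this

theorem mem_of_coprime {S : AddSubgroup A} {m n : ℕ} (h : m.Coprime n) {x : A} (hm : m • x ∈ S)
    (hn : n • x ∈ S) : x ∈ S := by
  obtain ⟨u, v, e⟩ := Nat.isCoprime_iff_coprime.2 h
  have := add_mem (S.zsmul_mem hm u) (S.zsmul_mem hn v)
  rwa [← natCast_zsmul, ← natCast_zsmul, smul_smul, smul_smul, ← add_smul, e, one_smul] at this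

end Alg

theorem sub_iff {E : Type} [Field E] [NumberField E] (w : Sp E) (x y : Un E)
    (hy : w.valuation E y.val = 1) : x - y ∈ U1w w ↔ w.valuation E (x.val - y.val) < 1 := by
  rw [mem_U1w, Un.val_sub, div_sub_one y.val_ne, map_div₀, hy, div_one]

section Cyc

variable {p q R g0 : ℕ} {k E Λ : Type} [Field k] [NumberField k] [Field E] [NumberField E]
  [Algebra k E] [Group Λ] [MulSemiringAction Λ E] {lam : Λ} {ζ : E}

theorem ram_pow (c : Cy p q R g0 k lam ζ) (n : ℕ) (W : Pl E q) (x : 𝓞 E) :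
    lam ^ n • x - x ∈ W.1.asIdeal := by
  induction n with
  | zero => simp
  | succ n ih =>
    have := add_mem (c.ram W (lam ^ n • x)) ih
    rwa [sub_add_sub_cancel, ← mul_smul, ← pow_succ'] at this

theorem act_pow (c : Cy p q R g0 k lam ζ) (n : ℕ) : lam ^ n • ζ = ζ ^ g0 ^ n := by
  induction n with
  | zero => simp
  | succ n ih => rw [pow_succ', mul_smul, ih, smul_pow', c.act, ← pow_mul, pow_succ']

theorem ord_lam (c : Cy p q R g0 k lam ζ) : orderOf lam = p ^ R := by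
  rw [← c.card, ← Nat.card_zpowers, (Subgroup.eq_top_iff' _).2 c.gen, Subgroup.card_top]

theorem g_pow (c : Cy p q R g0 k lam ζ) : (g0 : ZMod q) ^ p ^ R = 1 := c.og ▸ pow_orderOf_eq_one _

theorem g_cop (c : Cy p q R g0 k lam ζ) : g0.Coprime q := by
  have := Fact.mk c.qp
  rw [← ZMod.isUnit_iff_coprime]
  exact IsUnit.of_pow_eq_one (g_pow c) (pow_ne_zero _ c.pp.ne_zero)

theorem cop (c : Cy p q (R + 1) g0 k lam ζ) : q.Coprime p := by
  refine (Nat.coprime_primes c.qp c.pp).2 fun e => ?_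
  subst e
  have := Fact.mk c.qp
  have h := g_pow c
  rw [ZMod.pow_card_pow] at h
  have h2 := c.og
  rw [h, orderOf_one] at h2
  exact (Nat.one_lt_pow R.succ_ne_zero c.qp.one_lt).ne h2

theorem root (c : Cy p q (R + 1) g0 k lam ζ) (γ : Un E) (hγ : γ.val = (g0 : E) ^ p ^ R) (Y : Un E)
    (h0 : Y ∈ Ru E q) (W : Pl E q) (h1 : p • Y ∈ U1w W.1) : ∃ n : ℕ, Y - n • γ ∈ U1w W.1 := by
  have := Fact.mk c.qp
  have : NeZero p := ⟨c.pp.ne_zero⟩
  have hq := c.qp.ne_zero
  obtain ⟨z, y, hy, e⟩ := exists_int_approx ((mem_Ru_iff hq).1 h0).1 1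
  have hY : W.1.valuation E Y.val = 1 := h0 W.1 W.2
  have h2 : W.1.valuation E ((z : E) - Y.val) < 1 := by
    rw [e, sub_add_cancel_left, Valuation.map_neg, pow_one, map_mul]
    exact mul_lt_one_of_lt_of_le (val_nat_lt_one W.2) ((mem_Rl_iff hq).1 hy W.1 W.2)
  have hz : z ≠ 0 := by
    rintro rfl
    simp [hY] at h2
  have h3 : mkI z hz - Y ∈ U1w W.1 := (sub_iff _ _ _ hY).2 h2
  have h4 : p • mkI z hz ∈ U1w W.1 := by
    have := add_mem (AddSubgroup.nsmul_mem _ h3 p) h1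
    rwa [smul_sub, sub_add_cancel] at this
  have h5 : z ^ p - 1 ∈ W.1.asIdeal := (val_lt_one_iff W.1 _).1 (by simpa [mem_U1w] using h4)
  have := W.1.isPrime
  have : CharP (𝓞 E ⧸ W.1.asIdeal) q := (CharP.charP_iff_prime_eq_zero c.qp).2 (by
    simpa using Ideal.Quotient.eq_zero_iff_mem.2 W.2)
  have h6 : IsPrimitiveRoot ((g0 : ZMod q) ^ p ^ R) p := by
    have := IsPrimitiveRoot.orderOf ((g0 : ZMod q) ^ p ^ R)
    rwa [orderOf_pow_of_dvd (pow_ne_zero _ c.pp.ne_zero) (c.og ▸ pow_dvd_pow p R.le_succ), c.og,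
      pow_succ', Nat.mul_div_cancel _ (pow_pos c.pp.pos _)] at this
  obtain ⟨n, -, hn⟩ := (h6.map_of_injective
    (ZMod.castHom (dvd_refl q) (𝓞 E ⧸ W.1.asIdeal)).injective).eq_pow_of_pow_eq_one
    (ξ := Ideal.Quotient.mk _ z) (by
      rw [← map_pow, ← sub_eq_zero, ← map_one (Ideal.Quotient.mk W.1.asIdeal), ← map_sub]
      exact Ideal.Quotient.eq_zero_iff_mem.2 h5)
  have h7 : z - ((g0 : 𝓞 E) ^ p ^ R) ^ n ∈ W.1.asIdeal := by
    rw [← Ideal.Quotient.eq, ← hn]
    simp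
  have h8 : mkI z hz - n • γ ∈ U1w W.1 := by
    refine (sub_iff _ _ _ ?_).2 ?_
    · simp [hγ, val_coprime W.2 (g_cop c)]
    · simpa [hγ] using (val_lt_one_iff W.1 _).2 h7
  refine ⟨n, ?_⟩
  have := sub_mem h8 h3
  rwa [sub_sub_sub_cancel_left] at this

theorem adj (hU : RowU1) (c : Cy p q (R + 1) g0 k lam ζ) (Y : Un E)
    (hY : Nm lam p Y ∈ U1 E q) :
    ∃ y : Un E, lam ^ p • y = y ∧ Y - (lam • y - y) ∈ U1 E q := by
  have := c.gal
  have := IsGaloisGroup.finite Λ k E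
  have := IsGaloisGroup.faithful (G := Λ) (A := k) (B := E)
  have tv := fun (n : ℕ) (W : Pl E q) => hU.triv E Λ (lam ^ n) W.1 (ram_pow c n W)
  have o1 : ∀ W : Pl E q, ord W.1 Y = 0 := by
    intro W
    have h := hU.ord E W.1 _ (mem_U1.1 hY W)
    have e : ∀ i : ℕ, ord W.1 (lam ^ i • Y) = ord W.1 Y := fun i => by
      conv_lhs => rw [← (tv i W).1]
      exact rowNT2.ord_smul E Λ _ _ _
    rw [Nm_apply, map_sum, Finset.sum_congr rfl fun i _ => e i, Finset.sum_const,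
      Finset.card_range, nsmul_eq_mul, mul_eq_zero] at h
    exact h.resolve_left (by exact_mod_cast c.pp.ne_zero)
  have o2 : ∀ W : Pl E q, p • Y ∈ U1w W.1 := fun W => by
    have := sub_mem (mem_U1.1 hY W) (Nm_cong _ lam Y (fun i => (tv i W).2 Y (o1 W)) p)
    rwa [sub_sub_cancel] at this
  have hζ : 1 - ζ ≠ 0 := sub_ne_zero.2 (c.prim.ne_one c.qp.one_lt).symm
  have hg : (g0 : E) ≠ 0 := by
    have := g_cop c
    rintro h
    rw [Nat.cast_eq_zero.1 h, Nat.coprime_zero_left] at this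
    exact c.qp.one_lt.ne' this
  set π : Un E := Un.mk _ hζ with hπ
  set ϖ := Nm (lam ^ p) (p ^ R) π with hϖ
  have f1 : lam ^ p • ϖ = ϖ := by
    rw [← sub_eq_zero, hϖ, smul_Nm _ _ (Commute.refl _), ← map_sub, Nm_df, ← pow_mul, ← pow_succ',
      ← ord_lam c, pow_orderOf_eq_one, one_smul, sub_self]
  have f2 : ∀ W : Pl E q, lam • π - π - Un.mk _ hg ∈ U1w W.1 := by
    intro W
    have hg1 := val_coprime W.2 (g_cop c)
    refine (sub_iff _ _ _ hg1).2 ?_
    obtain ⟨z, hz⟩ : ∃ z : 𝓞 E, algebraMap (𝓞 E) E z = ζ := ⟨⟨ζ, c.prim.isIntegral c.qp.pos⟩, rfl⟩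
    have := W.1.isPrime
    have : CharP (𝓞 E ⧸ W.1.asIdeal) q := (CharP.charP_iff_prime_eq_zero c.qp).2 (by
      simpa using Ideal.Quotient.eq_zero_iff_mem.2 W.2)
    have := Fact.mk c.qp
    have e1 : z ^ q = 1 := RingOfIntegers.ext (by simpa [hz] using c.prim.pow_eq_one)
    have e2 : Ideal.Quotient.mk W.1.asIdeal z = 1 := by
      rw [← sub_eq_zero]
      refine pow_eq_zero_iff c.qp.ne_zero |>.1 ?_
      rw [sub_pow_char, ← map_pow, e1, map_one, one_pow, sub_self]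
    have e3 : ∑ i ∈ Finset.range g0, z ^ i - g0 ∈ W.1.asIdeal := by
      rw [← Ideal.Quotient.eq]
      simp [e2]
    have e4 : (lam • π - π).val = ∑ i ∈ Finset.range g0, ζ ^ i := by
      rw [Un.val_sub, Un.val_smul, hπ, Un.val_mk, div_eq_iff hζ, geom_sum_mul_neg, smul_sub,
        smul_one, c.act]
    rw [e4]
    simpa [hz] using (val_lt_one_iff W.1 _).2 e3
  have f3 : ∀ W : Pl E q, lam • ϖ - ϖ - (p ^ R) • Un.mk _ hg ∈ U1w W.1 := by
    intro W
    have h0 : ord W.1 (lam • π - π) = 0 := by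
      rw [map_sub, sub_eq_zero]
      conv_lhs => rw [← (tv 1 W).1, pow_one]
      exact rowNT2.ord_smul E Λ _ _ _
    have := add_mem (Nm_cong _ (lam ^ p) (lam • π - π) (fun i => by
      rw [← pow_mul]; exact (tv _ W).2 _ h0) (p ^ R)) (AddSubgroup.nsmul_mem _ (f2 W) (p ^ R))
    rwa [smul_sub (p ^ R) (lam • π - π), sub_add_sub_cancel, map_sub,
      ← smul_Nm _ _ ((Commute.refl lam).pow_right p)] at this
  choose n hn using fun W : Pl E q => root c ((p ^ R) • Un.mk _ hg) (by simp) Y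
    (mem_Ru_iff_ord.2 o1) W (o2 W)
  obtain ⟨y, y1, y2⟩ := hU.waFix E Λ (lam ^ p) q c.qp.ne_zero (fun W => Subtype.ext (tv p W).1)
    (fun W => n W • ϖ) fun W => by rw [smul_comm, f1]
  refine ⟨y, y1, mem_U1.2 fun W => ?_⟩
  have y3 := (hU.smul E Λ lam W.1 _).2 (y2 W)
  rw [show lam • W.1 = W.1 by simpa using (tv 1 W).1, smul_sub, smul_comm] at y3
  have := sub_mem (sub_mem (add_mem (hn W) (y2 W)) y3) (AddSubgroup.nsmul_mem _ (f3 W) (n W))
  rw [smul_sub, smul_sub] at this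
  refine (congrArg (· ∈ U1w W.1) ?_).mp this
  abel

end Cyc

end HA3a

open HA3a

theorem rowHA3 : RowU1 → RowFR → RowINERT → RowHA2 → RowHA3 := by
  intro hU hF hI hA p q R
  induction R with
  | zero =>
    intro g0 k E Λ _ _ _ _ _ _ _ lam ζ ψ _ _ b _ _
    exact ⟨Un.inc k E b, by simp [Nm_apply]⟩
  | succ R ih =>
    intro g0 k E Λ _ _ _ _ _ _ _ lam ζ ψ c hψ b hb hbw
    have h1 := H10.rowNT1
    have h2 := rowNT2
    have hp := c.pp
    have := c.gal
    have := IsGaloisGroup.finite Λ k E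
    have := IsGaloisGroup.faithful (G := Λ) (A := k) (B := E)
    have hc1 : orderOf (lam ^ p) = p ^ R := by
      rw [orderOf_pow_of_dvd hp.ne_zero (ord_lam c ▸ dvd_pow_self p R.succ_ne_zero), ord_lam c,
        pow_succ, Nat.mul_div_cancel _ hp.pos]
    set Q := Subgroup.zpowers (lam ^ p) with hQ
    obtain ⟨K, _, _, _, hK⟩ := H76.exists_fix E Q
    obtain ⟨φ, hφ⟩ := H76.exists_lift (G := Q) (K := K) (algebraMap k E)
      fun s a => H76.smul_alg (s : Λ) a
    let _ : Algebra k K := φ.toAlgebra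
    have : IsScalarTower k K E := IsScalarTower.of_algebraMap_eq fun x => (hφ x).symm
    have : IsGaloisGroup ↥(Q ⊔ Subgroup.zpowers lam) k E :=
      ⟨inferInstance, ⟨fun s a x => c.gal.commutes.smul_comm (s : Λ) a x⟩, ⟨fun x hx =>
        c.gal.isInvariant.isInvariant x fun s => hx ⟨s, Subgroup.mem_sup_right (c.gen s)⟩⟩⟩
    obtain ⟨τ, hτ, hne, hc, hG⟩ := H76.exists_tau Q lam k K E hp
      (Subgroup.mem_normalizer_iff.2 fun s => by
        obtain ⟨n, rfl⟩ := c.gen s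
        simp only [← (Commute.refl lam).zpow_left n |>.eq, mul_inv_cancel_right])
      (Subgroup.mem_zpowers _) (fun h => by
        have := Subgroup.card_le_of_le (Subgroup.zpowers_le.2 h)
        rw [Nat.card_zpowers, Nat.card_zpowers, hc1, ord_lam c] at this
        exact (Nat.pow_lt_pow_right hp.one_lt R.lt_succ_self).not_ge this)
    obtain ⟨G, _, _, _, t, hτ, ht, hc⟩ : ∃ (G : Type) (_ : Group G) (_ : MulSemiringAction G K)
        (_ : IsGaloisGroup G k K) (t : G), (∀ x, algebraMap K E (t • x) = lam • algebraMap K E x) ∧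
        t ≠ 1 ∧ Nat.card G = p :=
      ⟨_, _, _, hG, ⟨τ, Subgroup.mem_zpowers τ⟩, hτ, fun e => hne (congrArg Subtype.val e), hc⟩
    let l1 : Q := ⟨lam ^ p, Subgroup.mem_zpowers _⟩
    have c1 : Cy p q R (g0 ^ p) K l1 ζ :=
      { pp := hp
        qp := c.qp
        gal := hK
        card := by rw [Nat.card_zpowers, hc1]
        gen := by
          rintro ⟨_, n, rfl⟩
          exact ⟨n, Subtype.ext (by simp [l1])⟩
        prim := c.prim
        act := act_pow c p
        og := by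
          rw [Nat.cast_pow, orderOf_pow_of_dvd hp.ne_zero (c.og ▸ dvd_pow_self p R.succ_ne_zero),
            c.og, pow_succ, Nat.mul_div_cancel _ hp.pos]
        ram := ram_pow c p
        im := c.im.elim fun i hi => ⟨algebraMap k K i, by rw [← map_pow, hi, map_neg, map_one]⟩ }
    obtain ⟨-, hu, hfr⟩ := hF p q _ g0 k E Λ lam ζ c
    obtain ⟨⟨ψ1, hψ1⟩, -, hfr1⟩ := hF p q _ _ K E Q l1 ζ c1
    obtain ⟨r1, -, -, r4, -⟩ := hfr1 ψ1 hψ1
    obtain ⟨D0, hD0⟩ := ((hfr ψ hψ).2.2.2.1 (dv k q b)).2 hbw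
    have huK := (H76.unr_tower h1 K hu).1
    have hi : ∀ x : Un K, Un.inc K E (t • x) = lam • Un.inc K E x := fun x => Un.ext (hτ x.val)
    have hn : ∀ x : Un K, Un.inc k K (Un.nrm k K x) = Nm t p x := h2.inc_nrm k K _ t p hp hc ht
    have hN : ∀ y : Un K, Nm lam p (Un.inc K E y) = Un.inc k E (Un.nrm k K y) := fun y => by
      rw [← H76.Nm_map (Un.inc K E) t lam p hi, ← hn]
      exact Un.ext (IsScalarTower.algebraMap_apply k K E _).symm
    have tp : t ^ p = 1 := hc ▸ pow_card_eq_one'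
    have hd : ∀ y u : Un K, Un.nrm k K (y - (t • u - u)) = Un.nrm k K y := fun y u =>
      H76.inc_inj (F := K) (by rw [hn, hn, map_sub, Nm_df, tp, one_smul, sub_self, sub_zero])
    obtain ⟨y1, e1⟩ : b ∈ (Un.nrm k K).range := by
      obtain ⟨M, hM⟩ := allLAY p hp k K _ t q hc ht c.qp.two_le c.im huK
      obtain ⟨n, hn'⟩ := hU.ray k q M c.qp b hb
      refine mem_of_coprime ((cop c).pow_left n) ((hM M le_rfl).1 _ hn' ?_)
        ⟨Un.inc k K b, H76.inc_inj (F := K) ?_⟩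
      · rw [map_nsmul, ← hD0, ← H35.nrD_nrD h1 k K E]
        exact AddSubgroup.nsmul_mem _ (AddMonoidHom.mem_range.2 ⟨_, rfl⟩) _
      · rw [hn, map_nsmul, Nm_of_fix ((h2.inc_range k K _ _).1 ⟨b, rfl⟩ t)]
    obtain ⟨y, f1, f2⟩ := adj hU c (Un.inc K E y1) (by rw [hN, e1]; exact (hU.inc' k E q b).2 hb)
    obtain ⟨u0, rfl⟩ := (h2.inc_range K E Q y).2 fun s =>
      Subgroup.zpowers_le.2 (show lam ^ p ∈ MulAction.stabilizer Λ y from f1) s.2
    rw [← hi, ← map_sub, ← map_sub, hU.inc'] at f2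
    have e2 := (hd y1 u0).trans e1
    generalize y1 - (t • u0 - u0) = y2 at f2 e2
    have hN' : ∀ D : Dv K q, Nm t p D = con k K q (nrD K q k D) := fun D => by
      refine DFunLike.congr_fun (hom_ext (f := Nm t p) (g := (con k K q).comp (nrD K q k))
        fun y => ?_) D
      rw [AddMonoidHom.comp_apply, ← H76.Nm_map (dv K q) t t p (H76.dv_smul h2 t), ← hn,
        H76.dv_inc h2 huK, h1.dv_nrm]
    have hs : ∀ D : Dv E q, nrD E q K (lam • D) = t • nrD E q K D := fun D => by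
      refine DFunLike.congr_fun (hom_ext
        (f := (nrD E q K).comp (DistribSMul.toAddMonoidHom _ lam))
        (g := (DistribSMul.toAddMonoidHom _ t).comp (nrD E q K)) fun y => ?_) D
      change nrD E q K (lam • dv E q y) = t • nrD E q K (dv E q y)
      rw [← H76.dv_smul h2, ← h1.dv_nrm, ← h1.dv_nrm, ← H76.dv_smul h2]
      refine congrArg _ (Un.ext ?_)
      have := Algebra.norm_eq_of_equiv_equiv (MulSemiringAction.toRingEquiv _ K t)
        (MulSemiringAction.toRingEquiv Λ E lam) (RingHom.ext fun y => hτ y) y.val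
      rw [Un.val_smul, Un.val_nrm, Un.val_nrm, this]
      exact ((MulSemiringAction.toRingEquiv _ K t).apply_symm_apply _).symm
    obtain ⟨D', -, e3⟩ := h2.h1p (Pr K q) _ p ⊥ t hp.pos
      (by rw [Subgroup.normalizer_eq_top]; trivial) (by simp [tp])
      (dv K q y2 - nrD E q K D0) (fun s hs => by rw [Subgroup.mem_bot.1 hs, one_smul]) (by
        rw [hN', map_sub, ← h1.dv_nrm, e2, H35.nrD_nrD h1, hD0, sub_self, map_zero])
    obtain ⟨W, hW⟩ := hI p 0 (R + 1) q E Λ Λ 1 lam hp c.qp.ne_zero (one_pow _)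
      (ord_lam c ▸ pow_orderOf_eq_one lam) fun x => by rw [one_smul, one_smul]
    rw [one_smul] at hW
    have w1 : t • W.und K = W.und K := by rw [← H19.und_smul' (σ' := lam) hτ, hW]
    obtain ⟨a, a', ea⟩ := Nat.isCoprime_iff_coprime.2 (Nat.dvd_one.1 ((r1 W 1).1 (by
      rw [pow_one]
      exact pow_mem (show lam ∈ MulAction.stabilizer Λ W from hW) p)))
    obtain ⟨u, hu1, hu2⟩ := hA p q R _ K E Q l1 ζ ψ1 c1 hψ1
      (D' + Finsupp.single (W.und K) (-a * Ps ψ1 D')) ⟨a' * Ps ψ1 D', by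
        rw [map_add, Ps_single]
        linear_combination (-Ps ψ1 D') * ea⟩
    obtain ⟨D2, e4⟩ := (r4 (D' + Finsupp.single (W.und K) (-a * Ps ψ1 D') - dv K q u)).2 hu2
    obtain ⟨y, hy⟩ := ih _ K E Q l1 ζ ψ1 c1 hψ1 (y2 - (t • u - u))
      (sub_mem f2 (sub_mem (hU.smul' K _ t q u hu1) hu1))
      ((r4 (dv K q (y2 - (t • u - u)))).1 ⟨D0 + (lam • D2 - D2), by
        rw [map_add, map_sub, hs, e4, map_sub, map_sub, H76.dv_smul h2, sub_eq_iff_eq_add.1 e3,
          smul_sub, smul_add, Finsupp.comapSMul_single, w1]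
        abel⟩)
    refine ⟨y, ?_⟩
    rw [pow_succ', Nm_mul, ← e2, ← hd y2 u, ← hN, hy]
    exact congrArg _ (H76.Nm_map (AddMonoidHom.id _) l1 (lam ^ p) _ (fun _ => rfl) y)

end Pool.Agent.MP_db5b97_nt.H16
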