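import Pool.Agent.MP_db5b97_nt.H31.SpecG

/-! Subgroups of small index in an alternating group. -/

namespace Pool.Agent.MP_db5b97_nt.H16

open MulAction Equiv Finset Pool.Agent.MP_db5b97_nt.H31

namespace ILa

theorem choose_mono (k m d : ℕ) (h1 : m ≤ d) (h2 : d + m ≤ k) : k.choose m ≤ k.choose d := by
  have A : ∀ e, m ≤ e → e ≤ k / 2 → k.choose m ≤ k.choose e := by
    intro e he
    induction e, he using Nat.le_induction with
    | base => exact fun _ => le_rfl
    | succ e _ ih => exact fun h => (ih (by omega)).trans (Nat.choose_le_succ_of_lt_half_left h)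
  by_cases h : d ≤ k / 2
  · exact A d h1 h
  · rw [← Nat.choose_symm (show d ≤ k by omega)]
    exact A _ (by omega) (by omega)

theorem pow_le (k m : ℕ) : (k + 1 - m) ^ m ≤ m.factorial * k.choose m := by
  rw [← Nat.descFactorial_eq_factorial_mul_choose]
  exact Nat.pow_sub_le_descFactorial k m

theorem fact_big (s : ℕ) (hs : 9 ≤ s) : (8 * (s + 1) ^ 2 + 2) ^ 2 < 4 * s.factorial := by
  induction s, hs using Nat.le_induction with
  | base => decide
  | succ s hs ih =>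
    rw [Nat.factorial_succ]
    have h1 : 8 * (s + 1 + 1) ^ 2 + 2 ≤ 2 * (8 * (s + 1) ^ 2 + 2) := by nlinarith
    have h2 := Nat.pow_le_pow_left h1 2
    rw [mul_pow] at h2
    nlinarith

variable {Z : Type} [Fintype Z] [DecidableEq Z]

theorem stable (K : Subgroup (Perm Z)) (D : Finset Z) (h : ∀ g ∈ K, ∀ x ∈ D, g x ∈ D) :
    (Fintype.card Z).choose D.card ≤ K.index := by
  classical
  rw [← card_univ, ← card_powersetCard, Subgroup.index, Nat.card_eq_fintype_card, ← card_univ]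
  refine le_trans (card_le_card ?_) (card_image_le (f := fun q : Perm Z ⧸ K => D.image q.out))
  intro T hT
  have hc : D.card = T.card := (mem_powersetCard.1 hT).2.symm
  obtain ⟨g, hg⟩ : ∃ g : Perm Z, D.image g = T := by
    let e : {x // x ∈ D} ≃ {x // x ∈ T} := Fintype.equivOfCardEq (by simpa using hc)
    refine ⟨e.extendSubtype, eq_of_subset_of_card_le (fun y hy => ?_) ?_⟩
    · obtain ⟨x, hx, rfl⟩ := mem_image.1 hy
      exact e.extendSubtype_mem x hx
    · rw [card_image_of_injective _ (Equiv.injective _), hc]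
  obtain ⟨a, ha⟩ := QuotientGroup.mk_out_eq_mul K g
  refine mem_image.2 ⟨(g : Perm Z ⧸ K), mem_univ _, ?_⟩
  rw [ha, ← hg]
  refine eq_of_subset_of_card_le (fun y hy => ?_) ?_
  · obtain ⟨x, hx, rfl⟩ := mem_image.1 hy
    exact mem_image.2 ⟨_, h a a.2 x hx, rfl⟩
  · rw [card_image_of_injective _ (Equiv.injective _),
      card_image_of_injective _ (Equiv.injective _)]

omit [DecidableEq Z] in
theorem idx (K : Subgroup (Perm Z)) (x : Z) :
    (K ⊓ stabilizer (Perm Z) x).index ≤ K.index * Fintype.card Z := by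
  refine Subgroup.index_inf_le.trans (le_of_eq ?_)
  rw [index_stabilizer_of_transitive, Nat.card_eq_fintype_card]

theorem two (H : Subgroup (Perm Z)) (hk : 4 ≤ Fintype.card Z)
    (hI : 4 * H.index ≤ Fintype.card Z ^ 2) (D : Finset Z) (h : ∀ g ∈ H, ∀ x ∈ D, g x ∈ D)
    (h1 : 2 ≤ D.card) (h2 : D.card + 2 ≤ Fintype.card Z) : False := by
  have a := (choose_mono _ 2 _ h1 h2).trans (stable H D h)
  have b := pow_le (Fintype.card Z) 2
  obtain ⟨n, hn⟩ : ∃ n, Fintype.card Z = n + 4 := ⟨Fintype.card Z - 4, by omega⟩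
  rw [hn] at a b hI
  rw [show n + 4 + 1 - 2 = n + 3 by omega, show Nat.factorial 2 = 2 from rfl] at b
  nlinarith

theorem six (H : Subgroup (Perm Z)) (hk : 6000 ≤ Fintype.card Z)
    (hI : 4 * H.index ≤ Fintype.card Z ^ 2) (D : Finset Z) (x y z : Z)
    (h : ∀ g ∈ H, g x = x → g y = y → g z = z → ∀ w ∈ D, g w ∈ D)
    (h1 : 6 ≤ D.card) (h2 : D.card + 6 ≤ Fintype.card Z) : False := by
  have a := (choose_mono _ 6 _ h1 h2).trans (stable
    (H ⊓ stabilizer (Perm Z) x ⊓ stabilizer (Perm Z) y ⊓ stabilizer (Perm Z) z) D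
    fun g hg => h g hg.1.1.1 hg.1.1.2 hg.1.2 hg.2)
  have b := pow_le (Fintype.card Z) 6
  have c := (idx _ z).trans (Nat.mul_le_mul_right _ ((idx _ y).trans
    (Nat.mul_le_mul_right _ (idx H x))))
  have d := a.trans c
  obtain ⟨n, hn⟩ : ∃ n, Fintype.card Z = n + 5 := ⟨Fintype.card Z - 5, by omega⟩
  rw [hn] at d b hI hk
  rw [show n + 5 + 1 - 6 = n by omega, show Nat.factorial 6 = 720 from rfl] at b
  have e : n ^ 6 ≤ 180 * (n + 5) ^ 5 := by
    calc n ^ 6 ≤ 720 * (H.index * (n + 5) * (n + 5) * (n + 5)) :=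
          b.trans (Nat.mul_le_mul_left _ d)
      _ = 180 * (4 * H.index * (n + 5) ^ 3) := by ring
      _ ≤ 180 * ((n + 5) ^ 2 * (n + 5) ^ 3) :=
          Nat.mul_le_mul_left _ (Nat.mul_le_mul_right _ hI)
      _ = _ := by ring
  have f : (n + 5) ^ 5 ≤ (2 * n) ^ 5 := Nat.pow_le_pow_left (by omega) 5
  have g : n * n ^ 5 ≤ 5760 * n ^ 5 := by
    calc n * n ^ 5 = n ^ 6 := by ring
      _ ≤ 180 * (2 * n) ^ 5 := e.trans (Nat.mul_le_mul_left _ f)
      _ = _ := by ring
  have := Nat.le_of_mul_le_mul_right g (pow_pos (by omega) 5)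
  omega

theorem noblock (H : Subgroup (Perm Z)) (hk : 6000 ≤ Fintype.card Z)
    (hI : 4 * H.index ≤ Fintype.card Z ^ 2) (B X : Finset Z)
    (hB : ∀ g ∈ H, ∀ x ∈ B, g x ∈ B → ∀ y ∈ B, g y ∈ B) (h2 : 2 ≤ B.card)
    (hX : Fintype.card Z ≤ X.card + 1) (hc : ∀ w ∈ X, ∃ g ∈ H, w ∈ B.image g)
    (hne : ∃ w ∈ X, w ∉ B) : False := by
  have cd : ∀ g : Perm Z, (B.image g).card = B.card := fun g =>
    card_image_of_injective _ (Equiv.injective _)
  have sub : ∀ g ∈ H, ∀ g' ∈ H, ∀ x ∈ B.image g, x ∈ B.image g' → B.image g ⊆ B.image g' := by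
    intro g hg g' hg' x hx hx' y hy
    obtain ⟨a, ha, rfl⟩ := mem_image.1 hx
    obtain ⟨a', ha', e⟩ := mem_image.1 hx'
    obtain ⟨b, hb, rfl⟩ := mem_image.1 hy
    refine mem_image.2 ⟨(g'⁻¹ * g) b, hB _ (H.mul_mem (H.inv_mem hg') hg) a ha ?_ b hb, by simp⟩
    simpa [← e] using ha'
  have st : ∀ g ∈ H, ∀ x ∈ B.image g, ∀ u ∈ H, u x = x → ∀ w ∈ B.image g, u w ∈ B.image g := by
    intro g hg x hx u hu e w hw
    have t : ∀ v ∈ B.image g, u v ∈ B.image (u * g : Perm Z) := fun v hv => by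
      obtain ⟨a, ha, rfl⟩ := mem_image.1 hv
      exact mem_image.2 ⟨a, ha, rfl⟩
    exact sub _ (H.mul_mem hu hg) g hg x (e ▸ t x hx) hx (t w hw)
  have dj : ∀ g ∈ H, ∀ g' ∈ H, ∀ x ∈ B.image g, x ∉ B.image g' →
      Disjoint (B.image g') (B.image g) := fun g hg g' hg' x hx hx' =>
    disjoint_left.2 fun y hy hy' => hx' (sub g hg g' hg' y hy' hy hx)
  have one : B.image (1 : Perm Z) = B := by simp
  obtain ⟨x, hx⟩ : B.Nonempty := card_pos.1 (by omega)
  obtain ⟨y, hy, hyB⟩ := hne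
  obtain ⟨g, hg, hyg⟩ := hc y hy
  have d1 := dj g hg 1 H.one_mem y hyg (by rwa [one])
  have s1 := st 1 H.one_mem x (by rwa [one])
  rw [one] at d1 s1
  have c1 : (B ∪ B.image g).card = B.card + B.card := by rw [card_union_of_disjoint d1, cd]
  by_cases h6 : 6 ≤ B.card
  · have := card_le_univ (B ∪ B.image g)
    exact six H hk hI B x x x (fun u hu e _ _ => s1 u hu e) h6 (by omega)
  obtain ⟨z, hz, hzB⟩ := exists_mem_notMem_of_card_lt_card (s := B ∪ B.image g) (t := X) (by omega)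
  obtain ⟨g', hg', hzg⟩ := hc z hz
  have d2 := dj g' hg' 1 H.one_mem z hzg (by rw [one]; exact fun h => hzB (mem_union_left _ h))
  rw [one] at d2
  have d3 := dj g' hg' g hg z hzg fun h => hzB (mem_union_right _ h)
  have c2 : (B ∪ B.image g ∪ B.image g').card = B.card + B.card + B.card := by
    rw [card_union_of_disjoint (disjoint_union_left.2 ⟨d2, d3⟩), c1, cd]
  refine six H hk hI (B ∪ B.image g ∪ B.image g') x y z (fun u hu e1 e2 e3 w hw => ?_)
    (by omega) (by omega)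
  simp only [mem_union] at hw ⊢
  rcases hw with (h | h) | h
  · exact Or.inl (Or.inl (s1 u hu e1 w h))
  · exact Or.inl (Or.inr (st g hg y hyg u hu e2 w h))
  · exact Or.inr (st g' hg' z hzg u hu e3 w h)

theorem small (H : Subgroup (Perm Z)) (S : Finset Z) (h : H.index < S.card.factorial) :
    ∃ g ∈ H, g ≠ 1 ∧ ∀ w, g w ≠ w → w ∈ S := by
  classical
  obtain ⟨f, f', hne, e⟩ := Fintype.exists_ne_map_eq_of_card_lt
    (fun f : Perm {x // x ∈ S} => ((Perm.ofSubtype f : Perm Z) : Perm Z ⧸ H)) (by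
      rwa [Fintype.card_perm, Fintype.card_coe, ← Nat.card_eq_fintype_card])
  refine ⟨Perm.ofSubtype (f⁻¹ * f'), ?_, fun h1 => hne ?_, fun w hw => ?_⟩
  · rw [map_mul, map_inv]
    exact QuotientGroup.eq.1 e
  · exact inv_mul_eq_one.1 (Perm.ofSubtype_injective (h1.trans (map_one _).symm))
  · by_contra hS
    exact hw (Perm.ofSubtype_apply_of_not_mem _ hS)

theorem big (H : Subgroup (Perm Z)) (hk : 4 ≤ Fintype.card Z)
    (hI : 4 * H.index ≤ Fintype.card Z ^ 2) :
    ∃ x : Z, Fintype.card Z ≤ (orbit H x).ncard + 1 := by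
  classical
  by_contra hn
  push Not at hn
  have fx : ∀ x : Z, ∀ g ∈ H, g x = x := by
    intro x g hg
    by_contra hx
    have hc : (orbit H x).toFinset.card = (orbit H x).ncard := (Set.ncard_eq_toFinset_card' _).symm
    refine two H hk hI (orbit H x).toFinset (fun u hu y hy => ?_) ?_ (by have := hn x; omega)
    · rw [Set.mem_toFinset] at hy ⊢
      obtain ⟨a, rfl⟩ := hy
      exact ⟨⟨u, hu⟩ * a, rfl⟩
    · exact one_lt_card.2 ⟨g x, Set.mem_toFinset.2 ⟨⟨g, hg⟩, rfl⟩, x,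
        Set.mem_toFinset.2 (mem_orbit_self x), hx⟩
  obtain ⟨D, -, hD⟩ := exists_subset_card_eq (s := (univ : Finset Z)) (n := 2)
    (by rw [card_univ]; omega)
  exact two H hk hI D (fun g hg x hx => by rwa [fx x g hg]) hD.ge (by omega)

end ILa

open ILa

theorem rowIL : RowBB → RowIL := by
  intro hBB
  refine ⟨6000, fun Z _ _ H hk hH hI => ?_⟩
  classical
  have : Nontrivial Z := Fintype.one_lt_card_iff_nontrivial.1 (by omega)
  have hI' : 4 * H.index ≤ Fintype.card Z ^ 2 := by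
    rw [← Subgroup.relIndex_mul_index hH, alternatingGroup.index_eq_two]
    omega
  obtain ⟨x₀, hx₀⟩ := big H (by omega) hI'
  have hc : (orbit H x₀).toFinset.card = (orbit H x₀).ncard := (Set.ncard_eq_toFinset_card' _).symm
  have hst : ∀ g ∈ H, ∀ w ∈ orbit H x₀, g w ∈ orbit H x₀ := by
    rintro g hg _ ⟨a, rfl⟩
    exact ⟨⟨g, hg⟩ * a, rfl⟩
  obtain ⟨z, hz⟩ : ∃ z : Z, ∀ w, w ∉ orbit H x₀ → w = z := by
    have h1 : ((orbit H x₀).toFinsetᶜ).card ≤ 1 := by rw [card_compl]; omega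
    obtain ⟨z, hz⟩ := card_le_one_iff_subset_singleton.1 h1
    exact ⟨z, fun w hw => mem_singleton.1 (hz (mem_compl.2 (by rwa [Set.mem_toFinset])))⟩
  have hprim : IsPreprimitive H (orbit H x₀) := by
    refine { isTrivialBlock_of_isBlock := fun {B} hB => ?_ }
    by_contra hnt
    rw [IsTrivialBlock, not_or, Set.not_subsingleton_iff] at hnt
    obtain ⟨⟨a, ha, b, hb, hab⟩, hu⟩ := hnt
    have mem : ∀ y : orbit H x₀, (y : Z) ∈ B.toFinset.image Subtype.val ↔ y ∈ B := fun y => by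
      rw [Subtype.val_injective.mem_finset_image, Set.mem_toFinset]
    refine noblock H hk hI' (B.toFinset.image Subtype.val) (orbit H x₀).toFinset ?_ ?_ (by omega)
      ?_ ?_
    · intro g hg x hx hgx y hy
      obtain ⟨x, hx', rfl⟩ := mem_image.1 hx
      obtain ⟨y, hy', rfl⟩ := mem_image.1 hy
      rw [Set.mem_toFinset] at hx' hy'
      have e := isBlock_iff_smul_eq_of_mem.1 hB (g := ⟨g, hg⟩) hx' ((mem (_ • x)).1 hgx)
      exact (mem ((⟨g, hg⟩ : H) • y)).2 (e ▸ Set.smul_mem_smul_set hy')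
    · exact one_lt_card.2 ⟨a, (mem a).2 ha, b, (mem b).2 hb, fun e => hab (Subtype.ext e)⟩
    · intro w hw
      obtain ⟨g, hg⟩ := exists_smul_eq H a ⟨w, Set.mem_toFinset.1 hw⟩
      exact ⟨g, g.2, mem_image.2 ⟨a, (mem a).2 ha, congrArg Subtype.val hg⟩⟩
    · obtain ⟨w, hw⟩ := (Set.ne_univ_iff_exists_notMem B).1 hu
      exact ⟨w, Set.mem_toFinset.2 w.2, fun h => hw ((mem w).1 h)⟩
  have hGi : Gi H (orbit H x₀) := by
    by_contra hG
    obtain ⟨s, hs1, hs2⟩ : ∃ s : ℕ, s * s ≤ (Fintype.card Z - 3) / 8 ∧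
        (Fintype.card Z - 3) / 8 < (s + 1) * (s + 1) := ⟨_, Nat.sqrt_le _, Nat.lt_succ_sqrt _⟩
    have hs9 : 9 ≤ s := by
      by_contra h
      have : (s + 1) * (s + 1) ≤ 9 * 9 := Nat.mul_le_mul (by omega) (by omega)
      omega
    have hss : s ≤ s * s := Nat.le_mul_self s
    obtain ⟨S, hS, hSc⟩ := exists_subset_card_eq (s := (orbit H x₀).toFinset) (n := s) (by omega)
    have hf := fact_big s hs9
    have hk2 : Fintype.card Z ^ 2 ≤ (8 * (s + 1) ^ 2 + 2) ^ 2 :=
      Nat.pow_le_pow_left (by rw [pow_two]; omega) 2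
    obtain ⟨g, hg, hg1, hgS⟩ := small H S (by rw [hSc]; omega)
    obtain ⟨w, hw⟩ : ∃ w, g w ≠ w := by
      by_contra h
      push Not at h
      exact hg1 (Equiv.ext h)
    have h1 := hBB H (orbit H x₀) hprim hG ⟨g, hg⟩
      ⟨⟨w, Set.mem_toFinset.1 (hS (hgS w hw))⟩, fun e => hw (congrArg Subtype.val e)⟩
    have h2 : mv (orbit H x₀) (⟨g, hg⟩ : H) ≤ s := by
      rw [← hSc]
      refine card_le_card_of_injOn Subtype.val (fun y hy => ?_) Subtype.val_injective.injOn
      exact hgS y fun e => (mem_filter.1 hy).2 (Subtype.ext e)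
    have h3 := Nat.mul_le_mul h2 h2
    rw [← Set.toFinset_card, pow_two] at h1
    omega
  refine ⟨z, fun σ hσ hσz => ?_⟩
  have hp : ∀ x, σ x ∈ orbit H x₀ ↔ x ∈ orbit H x₀ := fun x => by
    refine not_iff_not.1 ⟨fun h => ?_, fun h => ?_⟩
    · have e : x = z := σ.injective ((hz _ h).trans hσz.symm)
      rwa [e, hσz, ← e] at h
    · rwa [hz x h, hσz, ← hz x h]
  obtain ⟨g, hg⟩ := hGi (σ.subtypePerm hp) (by
    rw [Perm.sign_subtypePerm σ hp fun x hx => by
      by_contra h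
      exact hx (by rw [hz x h, hσz])]
    exact Perm.mem_alternatingGroup.1 hσ)
  have e : (g : Perm Z) = σ := by
    ext w
    by_cases h : w ∈ orbit H x₀
    · exact congrArg Subtype.val (hg ⟨w, h⟩)
    · have h' : (g : Perm Z) w ∉ orbit H x₀ := fun h' => h (by
        simpa using hst _ (H.inv_mem g.2) _ h')
      rw [hz _ h', hz w h, hσz]
  exact e ▸ g.2

end Pool.Agent.MP_db5b97_nt.H16
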