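import Pool.Agent.MP_db5b97_nt.H31.SpecA

/-! A proper supplement to an elementary commutative normal subgroup with few orbits. -/

namespace Pool.Agent.MP_db5b97_nt.H16

open MulAction Pool.Agent.MP_db5b97_nt.H31

namespace SUPa

section Abstract

variable {U A : Type} [Group U] [CommGroup A] [MulDistribMulAction U A]

/-- a subgroup stable under `Γ` -/
def St (Γ : Subgroup U) (H : Subgroup A) : Prop := ∀ γ ∈ Γ, ∀ a ∈ H, γ • a ∈ H

/-- a maximal proper stable subgroup -/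
def Mx (Γ : Subgroup U) (K : Subgroup A) : Prop :=
  St Γ K ∧ K ≠ ⊤ ∧ ∀ H, St Γ H → K ≤ H → H ≠ ⊤ → H ≤ K

theorem St.inf {Γ : Subgroup U} {H K : Subgroup A} (h : St Γ H) (k : St Γ K) : St Γ (H ⊓ K) :=
  fun γ hγ a ha => ⟨h γ hγ a ha.1, k γ hγ a ha.2⟩

theorem St.sup {Γ : Subgroup U} {H K : Subgroup A} (h : St Γ H) (k : St Γ K) : St Γ (H ⊔ K) := by
  intro γ hγ a ha
  obtain ⟨x, hx, y, hy, rfl⟩ := Subgroup.mem_sup.1 ha
  rw [smul_mul']
  exact Subgroup.mul_mem_sup (h γ hγ x hx) (k γ hγ y hy)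

theorem compl (Γ : Subgroup U) (V : Subgroup A) (hV : St Γ V) (s : Finset (Subgroup A))
    (hs : ∀ K ∈ s, Mx Γ K) : ∃ C, St Γ C ∧ V ⊔ C = ⊤ ∧ ∀ K ∈ s, V ⊓ C ≤ K := by
  classical
  induction s using Finset.induction_on with
  | empty => exact ⟨⊤, fun _ _ _ _ => trivial, sup_top_eq _, by simp⟩
  | insert K s _ ih =>
    obtain ⟨C, h1, h2, h3⟩ := ih fun K' h => hs K' (Finset.mem_insert_of_mem h)
    obtain ⟨k1, k2, k3⟩ := hs K (Finset.mem_insert_self _ _)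
    by_cases h : V ⊓ C ≤ K
    · refine ⟨C, h1, h2, fun K' hK' => ?_⟩
      rcases Finset.mem_insert.1 hK' with rfl | h'
      · exact h
      · exact h3 K' h'
    · have ht : (V ⊓ C) ⊔ K = ⊤ := by
        by_contra hne
        exact h (le_sup_left.trans (k3 _ ((hV.inf h1).sup k1) le_sup_right hne))
      refine ⟨K ⊓ C, k1.inf h1, ?_, fun K' hK' => ?_⟩
      · have e : (V ⊓ C) ⊔ (K ⊓ C) = C := by
          rw [← sup_inf_assoc_of_le K (inf_le_right : V ⊓ C ≤ C), ht, top_inf_eq]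
        rw [eq_top_iff, ← h2]
        refine sup_le le_sup_left ?_
        calc C = (V ⊓ C) ⊔ (K ⊓ C) := e.symm
          _ ≤ V ⊔ (K ⊓ C) := sup_le_sup_right inf_le_left _
      · rcases Finset.mem_insert.1 hK' with rfl | h'
        · exact inf_le_right.trans inf_le_left
        · exact (inf_le_inf_left V inf_le_right).trans (h3 K' h')

theorem avg {I : Type} [Fintype I] [MulAction U I] (p : ℕ) (hp : p.Prime)
    (hA : ∀ a : A, a ^ p = 1) (hI : (Fintype.card I).Coprime p) (V K : Subgroup A)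
    (C : I → Subgroup A) (hV : St (⊤ : Subgroup U) V) (hK : St (⊤ : Subgroup U) K)
    (hC : ∀ (w : U) (i : I) (a : A), a ∈ C i → w • a ∈ C (w • i)) (h1 : ∀ i, V ⊔ C i = ⊤)
    (h2 : ∀ i, V ⊓ C i ≤ K) (hVK : ¬ V ≤ K) :
    ∃ M : Subgroup A, St (⊤ : Subgroup U) M ∧ V ⊔ M = ⊤ ∧ ¬ V ≤ M := by
  obtain ⟨n, -, hn⟩ := Nat.exists_mul_mod_eq_one_of_coprime hI hp.one_lt
  have hpow : ∀ a : A, (a ^ n) ^ Fintype.card I = a := by
    intro a
    rw [← pow_mul, mul_comm, ← Nat.div_add_mod (Fintype.card I * n) p, hn, pow_add, pow_mul, hA,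
      one_pow, one_mul, pow_one]
  let M : Subgroup A :=
    { carrier := {a | ∃ f : I → A, (∀ i, f i ∈ V ∧ a * (f i)⁻¹ ∈ C i) ∧ ∏ i, f i ∈ K}
      one_mem' := ⟨fun _ => 1, fun i => ⟨one_mem _, by simp⟩, by simp⟩
      mul_mem' := by
        rintro a b ⟨f, hf, hf'⟩ ⟨g, hg, hg'⟩
        refine ⟨fun i => f i * g i, fun i => ⟨mul_mem (hf i).1 (hg i).1, ?_⟩, ?_⟩
        · have := mul_mem (hf i).2 (hg i).2
          rwa [mul_mul_mul_comm, ← mul_inv] at this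
        · rw [Finset.prod_mul_distrib]
          exact mul_mem hf' hg'
      inv_mem' := by
        rintro a ⟨f, hf, hf'⟩
        refine ⟨fun i => (f i)⁻¹, fun i => ⟨inv_mem (hf i).1, ?_⟩, ?_⟩
        · have := inv_mem (hf i).2
          rwa [mul_inv] at this
        · rw [Finset.prod_inv_distrib]
          exact inv_mem hf' }
  refine ⟨M, ?_, ?_, ?_⟩
  · rintro w - a ⟨f, hf, hf'⟩
    refine ⟨fun i => w • f (w⁻¹ • i), fun i => ⟨hV w trivial _ (hf _).1, ?_⟩, ?_⟩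
    · have := hC w _ _ (hf (w⁻¹ • i)).2
      rwa [smul_inv_smul, smul_mul', smul_inv'] at this
    · rw [← Finset.smul_prod']
      have e : ∏ i, f (w⁻¹ • i) = ∏ i, f i := Equiv.prod_comp (MulAction.toPerm w⁻¹) f
      rw [e]
      exact hK w trivial _ hf'
  · rw [eq_top_iff]
    intro a _
    have hx : ∀ i, ∃ v, v ∈ V ∧ a * v⁻¹ ∈ C i := by
      intro i
      have : a ∈ V ⊔ C i := by rw [h1]; trivial
      obtain ⟨x, hx, y, hy, rfl⟩ := Subgroup.mem_sup.1 this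
      exact ⟨x, hx, by rwa [mul_inv_cancel_comm]⟩
    choose f hf using hx
    have hs : (∏ i, f i) ^ n ∈ V := pow_mem (prod_mem fun i _ => (hf i).1) n
    refine Subgroup.mem_sup.2 ⟨_, hs, a * ((∏ i, f i) ^ n)⁻¹,
      ⟨fun i => f i * ((∏ i, f i) ^ n)⁻¹, fun i => ⟨mul_mem (hf i).1 (inv_mem hs), ?_⟩, ?_⟩, ?_⟩
    · rw [mul_inv, inv_inv, mul_comm (f i)⁻¹, mul_assoc, inv_mul_cancel_left]
      exact (hf i).2
    · rw [Finset.prod_mul_distrib, Finset.prod_const, inv_pow, Finset.card_univ, hpow,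
        mul_inv_cancel]
      exact one_mem _
    · rw [mul_comm, inv_mul_cancel_right]
  · intro hle
    refine hVK fun v hv => ?_
    obtain ⟨f, hf, hf'⟩ := hle (pow_mem hv n)
    have : ∏ i, (v ^ n * (f i)⁻¹) ∈ K :=
      prod_mem fun i _ => h2 i ⟨V.mul_mem (V.pow_mem hv n) (V.inv_mem (hf i).1), (hf i).2⟩
    rw [Finset.prod_mul_distrib, Finset.prod_const, Finset.card_univ, hpow,
      Finset.prod_inv_distrib] at this
    have := mul_mem this hf'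
    rwa [inv_mul_cancel_right] at this

/-- the preimage of a subgroup under the action of `u` -/
def tr (u : U) (H : Subgroup A) : Subgroup A := H.comap (MulDistribMulAction.toMonoidHom A u)

theorem mem_tr {u : U} {H : Subgroup A} {a : A} : a ∈ tr u H ↔ u • a ∈ H := Iff.rfl

theorem St.tr {Γ : Subgroup U} [hΓ : Γ.Normal] {H : Subgroup A} (h : St Γ H) (u : U) :
    St Γ (tr u H) := by
  intro γ hγ a ha
  have := h _ (hΓ.conj_mem γ hγ u) _ (mem_tr.1 ha)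
  rwa [← mul_smul, inv_mul_cancel_right, mul_smul] at this

theorem tr_ne {H : Subgroup A} (h : H ≠ ⊤) (u : U) : tr u H ≠ ⊤ := by
  intro e
  refine h (eq_top_iff.2 fun a _ => ?_)
  have : u⁻¹ • a ∈ tr u H := by rw [e]; trivial
  rwa [mem_tr, smul_inv_smul] at this

theorem Mx.tr {Γ : Subgroup U} [Γ.Normal] {K : Subgroup A} (h : Mx Γ K) (u : U) :
    Mx Γ (tr u K) := by
  refine ⟨h.1.tr u, tr_ne h.2.1 u, fun H hH hle hne a ha => ?_⟩
  refine mem_tr.2 (h.2.2 _ (hH.tr u⁻¹) (fun b hb => mem_tr.2 (hle ?_)) (tr_ne hne u⁻¹) ?_)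
  · rwa [mem_tr, smul_inv_smul]
  · rwa [mem_tr, inv_smul_smul]

theorem supp [Finite A] (p : ℕ) (hp : p.Prime) (hA : ∀ a : A, a ^ p = 1) (Γ : Subgroup U)
    [Γ.Normal] (hΓ : Γ.index.Coprime p) (V K0 : Subgroup A) (hV : St (⊤ : Subgroup U) V)
    (h0 : St Γ K0) (h1 : K0 ≠ ⊤) (h2 : V ⊔ K0 = ⊤) :
    ∃ M : Subgroup A, St (⊤ : Subgroup U) M ∧ V ⊔ M = ⊤ ∧ ¬ V ≤ M := by
  classical
  have hfin : Γ.FiniteIndex := ⟨fun e => by
    rw [e, Nat.coprime_zero_left] at hΓ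
    exact hp.one_lt.ne' hΓ⟩
  let _ : Fintype (U ⧸ Γ) := Fintype.ofFinite _
  let _ : Fintype (Subgroup A) := Fintype.ofFinite _
  obtain ⟨K1, hK1, hmax⟩ := Finite.exists_le_maximal (p := fun H : Subgroup A => St Γ H ∧ H ≠ ⊤)
    (a := K0) ⟨h0, h1⟩
  have m1 : Mx Γ K1 := ⟨hmax.1.1, hmax.1.2, fun H a b c => hmax.2 ⟨a, c⟩ b⟩
  obtain ⟨C, c1, c2, c3⟩ := compl Γ V (fun γ _ => hV γ trivial)
    (Finset.univ.filter fun K => Mx Γ K) fun K hK => (Finset.mem_filter.1 hK).2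
  have hout : ∀ (u : U) (a : A), ((u : U ⧸ Γ).out)⁻¹ • a ∈ C ↔ u⁻¹ • a ∈ C := by
    intro u a
    obtain ⟨h, e⟩ := QuotientGroup.mk_out_eq_mul Γ u
    rw [e, mul_inv_rev, mul_smul]
    refine ⟨fun k => ?_, fun k => c1 _ (inv_mem h.2) _ k⟩
    have := c1 _ h.2 _ k
    rwa [smul_inv_smul] at this
  refine avg (I := U ⧸ Γ) p hp hA ?_ V (⨅ u : U, tr u K1) (fun i => tr i.out⁻¹ C) hV ?_ ?_ ?_ ?_ ?_
  · rwa [← Nat.card_eq_fintype_card]
  · intro w _ a ha
    rw [Subgroup.mem_iInf] at ha ⊢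
    intro u
    have := ha (u * w)
    rwa [mem_tr, mul_smul] at this
  · intro w i a ha
    induction i using QuotientGroup.induction_on with
    | H u =>
      rw [mem_tr, hout] at ha
      rw [MulAction.Quotient.smul_mk, mem_tr, hout, smul_eq_mul, mul_inv_rev, mul_smul,
        inv_smul_smul]
      exact ha
  · intro i
    rw [eq_top_iff]
    intro a _
    have : i.out⁻¹ • a ∈ V ⊔ C := by rw [c2]; trivial
    obtain ⟨x, hx, y, hy, e⟩ := Subgroup.mem_sup.1 this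
    refine Subgroup.mem_sup.2 ⟨i.out • x, hV _ trivial _ hx, i.out • y, ?_, ?_⟩
    · rwa [mem_tr, inv_smul_smul]
    · rw [← smul_mul', e, smul_inv_smul]
  · intro i a ha
    rw [Subgroup.mem_iInf]
    intro u
    have := c3 (tr (u * i.out) K1) (Finset.mem_filter.2 ⟨Finset.mem_univ _, m1.tr _⟩)
      (x := i.out⁻¹ • a) ⟨hV _ trivial _ ha.1, ha.2⟩
    rwa [mem_tr, mul_smul, smul_inv_smul] at this
  · intro hle
    refine m1.2.1 (eq_top_iff.2 ?_)
    rw [← h2]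
    refine sup_le (fun v hv => ?_) hK1
    have := Subgroup.mem_iInf.1 (hle hv) 1
    rwa [mem_tr, one_smul] at this

end Abstract

theorem supp' {U A : Type} [Group U] [Group A] [m : MulDistribMulAction U A] [Finite A]
    (hc : ∀ a b : A, a * b = b * a) (p : ℕ) (hp : p.Prime) (hA : ∀ a : A, a ^ p = 1)
    (Γ : Subgroup U) [Γ.Normal] (hΓ : Γ.index.Coprime p) (V K0 : Subgroup A)
    (hV : ∀ u : U, ∀ a ∈ V, u • a ∈ V) (h0 : ∀ u ∈ Γ, ∀ a ∈ K0, u • a ∈ K0) (h1 : K0 ≠ ⊤)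
    (h2 : ∀ a : A, ∃ v ∈ V, v⁻¹ * a ∈ K0) :
    ∃ M : Subgroup A, (∀ u : U, ∀ a ∈ M, u • a ∈ M) ∧ (∀ a : A, ∃ v ∈ V, v⁻¹ * a ∈ M) ∧
      ¬ V ≤ M := by
  let cg : CommGroup A := { (inferInstance : Group A) with mul_comm := hc }
  obtain ⟨M, k1, k2, k3⟩ := @supp U A _ cg m _ p hp hA Γ _ hΓ V K0 (fun u _ => hV u) h0 h1
    (eq_top_iff.2 fun a _ => by
      obtain ⟨v, hv, h⟩ := h2 a
      have := Subgroup.mul_mem_sup hv h
      rwa [mul_inv_cancel_left] at this)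
  refine ⟨M, fun u => k1 u trivial, fun a => ?_, k3⟩
  have : a ∈ V ⊔ M := by rw [k2]; trivial
  obtain ⟨x, hx, y, hy, rfl⟩ := (@Subgroup.mem_sup A cg _ _ _).1 this
  exact ⟨x, hx, by rwa [inv_mul_cancel_left]⟩

section Concrete

variable {U : Type} (Y : Type) [Group U] [MulAction U Y] (Q : Subgroup U)

/-- the permutations that agree with an element of `Q` on each orbit -/
def AA : Subgroup (Equiv.Perm Y) where
  carrier := {π | (∀ y, ∃ g ∈ Q, π y = g • y) ∧ ∀ g ∈ Q, ∀ y, π (g • y) = g • π y}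
  one_mem' := ⟨fun y => ⟨1, one_mem _, by simp⟩, fun _ _ _ => rfl⟩
  mul_mem' := by
    rintro a b ⟨a1, a2⟩ ⟨b1, b2⟩
    refine ⟨fun y => ?_, fun g hg y => ?_⟩
    · obtain ⟨g, hg, e⟩ := b1 y
      obtain ⟨h, hh, e'⟩ := a1 (b y)
      exact ⟨h * g, mul_mem hh hg, by rw [Equiv.Perm.mul_apply, e', e, mul_smul]⟩
    · rw [Equiv.Perm.mul_apply, b2 g hg, a2 g hg]
      rfl
  inv_mem' := by
    rintro a ⟨a1, a2⟩
    refine ⟨fun y => ?_, fun g hg y => ?_⟩
    · obtain ⟨g, hg, e⟩ := a1 (a⁻¹ y)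
      exact ⟨g⁻¹, inv_mem hg, by rw [eq_inv_smul_iff, ← e]; simp⟩
    · apply a.injective
      rw [a2 g hg]
      simp

/-- conjugation -/
def cj [hQ : Q.Normal] (u : U) (π : AA Y Q) : AA Y Q :=
  ⟨toPermHom U Y u * π.1 * (toPermHom U Y u)⁻¹, by
    refine ⟨fun y => ?_, fun g hg y => ?_⟩
    · obtain ⟨g, hg, e⟩ := π.2.1 (u⁻¹ • y)
      refine ⟨u * g * u⁻¹, hQ.conj_mem g hg u, ?_⟩
      change u • π.1 (u⁻¹ • y) = _
      rw [e, mul_smul, mul_smul]
    · change u • π.1 (u⁻¹ • g • y) = g • u • π.1 (u⁻¹ • y)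
      have := π.2.2 _ (hQ.conj_mem g hg u⁻¹) (u⁻¹ • y)
      rw [inv_inv, mul_smul, mul_smul, smul_inv_smul, mul_smul, mul_smul] at this
      rw [this, smul_inv_smul]⟩

theorem cj_apply [Q.Normal] (u : U) (π : AA Y Q) (y : Y) :
    (cj Y Q u π).1 y = u • π.1 (u⁻¹ • y) := rfl

/-- the action by conjugation -/
abbrev act [Q.Normal] : MulDistribMulAction U (AA Y Q) where
  smul := cj Y Q
  one_smul π := Subtype.ext (Equiv.ext fun y => by
    change (cj Y Q 1 π).1 y = _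
    rw [cj_apply, inv_one, one_smul, one_smul])
  mul_smul u w π := Subtype.ext (Equiv.ext fun y => by
    change (cj Y Q (u * w) π).1 y = (cj Y Q u (cj Y Q w π)).1 y
    rw [cj_apply, cj_apply, cj_apply, mul_inv_rev, mul_smul, mul_smul])
  smul_one u := Subtype.ext (Equiv.ext fun y => smul_inv_smul u y)
  smul_mul u π ρ := Subtype.ext (Equiv.ext fun y => by
    change u • π.1 (ρ.1 (u⁻¹ • y)) = u • π.1 (u⁻¹ • u • ρ.1 (u⁻¹ • y))
    rw [inv_smul_smul])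

theorem rel_iff (x y : Y) :
    (Quotient.mk (orbitRel Q Y) x = Quotient.mk (orbitRel Q Y) y) ↔ ∃ g ∈ Q, x = g • y := by
  rw [Quotient.eq, orbitRel_apply]
  exact ⟨fun ⟨g, e⟩ => ⟨g.1, g.2, e.symm⟩, fun ⟨g, hg, e⟩ => ⟨⟨g, hg⟩, e.symm⟩⟩

/-- the action on the orbits -/
abbrev actB [hQ : Q.Normal] : MulAction U (orbitRel.Quotient Q Y) where
  smul u := Quotient.map (u • ·) fun x y h => by
    obtain ⟨g, hg, e⟩ := (rel_iff Y Q x y).1 (Quotient.sound h)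
    refine Quotient.exact ((rel_iff Y Q _ _).2 ⟨u * g * u⁻¹, hQ.conj_mem g hg u, ?_⟩)
    rw [e, mul_smul, mul_smul, inv_smul_smul]
  one_smul b := Quotient.inductionOn b fun y => congrArg (Quotient.mk _) (one_smul U y)
  mul_smul u w b := Quotient.inductionOn b fun y => congrArg (Quotient.mk _) (mul_smul u w y)

theorem glue (hc : ∀ g ∈ Q, ∀ h ∈ Q, ∀ y : Y, g • h • y = h • g • y)
    (f : orbitRel.Quotient Q Y → U) (hf : ∀ b, f b ∈ Q) :
    ∃ a : AA Y Q, ∀ y, a.1 y = f (Quotient.mk _ y) • y := by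
  have e : ∀ g ∈ Q, ∀ y : Y, Quotient.mk (orbitRel Q Y) (g • y) = Quotient.mk _ y :=
    fun g hg y => (rel_iff Y Q _ _).2 ⟨g, hg, rfl⟩
  refine ⟨⟨⟨fun y => f (Quotient.mk _ y) • y, fun y => (f (Quotient.mk _ y))⁻¹ • y, fun y => ?_,
    fun y => ?_⟩, fun y => ⟨_, hf _, rfl⟩, fun g hg y => ?_⟩, fun _ => rfl⟩
  · change (f (Quotient.mk _ (f (Quotient.mk _ y) • y)))⁻¹ • f (Quotient.mk _ y) • y = y
    rw [e _ (hf _), inv_smul_smul]
  · change f (Quotient.mk _ ((f (Quotient.mk _ y))⁻¹ • y)) • (f (Quotient.mk _ y))⁻¹ • y = y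
    rw [e _ (inv_mem (hf _)), smul_inv_smul]
  · change f (Quotient.mk _ (g • y)) • g • y = g • f (Quotient.mk _ y) • y
    rw [e g hg, hc _ (hf _) g hg]

end Concrete

end SUPa

open SUPa

theorem rowSUP : RowSUP := by
  intro U Y _ _ _ Q p hp hQ hk hc hpow ⟨g0, hg0, y0, hy0⟩
  let m := act Y Q
  let mB := actB Y Q
  have sm : ∀ (u : U) (a : AA Y Q) (y : Y), (u • a).1 y = u • a.1 (u⁻¹ • y) := fun _ _ _ => rfl
  have smB : ∀ (u : U) (y : Y), u • (Quotient.mk _ y : orbitRel.Quotient Q Y) =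
    Quotient.mk _ (u • y) := fun _ _ => rfl
  have trB : ∀ g ∈ Q, ∀ b : orbitRel.Quotient Q Y, g • b = b := fun g hg b =>
    Quotient.inductionOn b fun y => (rel_iff Y Q _ _).2 ⟨g, hg, rfl⟩
  have inA : ∀ g ∈ Q, toPermHom U Y g ∈ AA Y Q := fun g hg =>
    ⟨fun y => ⟨g, hg, rfl⟩, fun h hh y => hc g hg h hh y⟩
  let V : Subgroup (AA Y Q) := (Q.map (toPermHom U Y)).subgroupOf (AA Y Q)
  have mV : ∀ a : AA Y Q, a ∈ V ↔ ∃ g ∈ Q, ∀ y, a.1 y = g • y := fun a =>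
    ⟨fun ⟨g, hg, e⟩ => ⟨g, hg, fun y => (congrArg (fun π : Equiv.Perm Y => π y) e).symm⟩,
      fun ⟨g, hg, e⟩ => ⟨g, hg, Equiv.ext fun y => (e y).symm⟩⟩
  obtain ⟨M, k1, k2, k3⟩ : ∃ M : Subgroup (AA Y Q), (∀ u : U, ∀ a ∈ M, u • a ∈ M) ∧
      (∀ a : AA Y Q, ∃ v ∈ V, v⁻¹ * a ∈ M) ∧ ¬ V ≤ M := by
    refine supp' (U := U) (A := AA Y Q) ?_ p hp ?_
      (toPermHom U (orbitRel.Quotient Q Y)).ker ?_ V (stabilizer (AA Y Q) y0) ?_ ?_ ?_ ?_
    · intro a b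
      refine Subtype.ext (Equiv.ext fun y => ?_)
      obtain ⟨g, hg, e⟩ := a.2.1 y
      obtain ⟨h, hh, e'⟩ := b.2.1 y
      change a.1 (b.1 y) = b.1 (a.1 y)
      rw [e', a.2.2 h hh, e, b.2.2 g hg, e', hc g hg h hh]
    · intro a
      refine Subtype.ext (Equiv.ext fun y => ?_)
      obtain ⟨g, hg, e⟩ := a.2.1 y
      have : ∀ n : ℕ, (a.1 ^ n) y = g ^ n • y := by
        intro n
        induction n with
        | zero => simp
        | succ n ih =>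
          rw [pow_succ', Equiv.Perm.mul_apply, ih, a.2.2 _ (pow_mem hg n), e, pow_succ, mul_smul]
      exact (this p).trans (hpow g hg y)
    · rw [Subgroup.index_ker]
      refine Nat.Coprime.coprime_dvd_left (Subgroup.card_subgroup_dvd_card _) ?_
      rw [Nat.card_perm]
      exact (hp.coprime_factorial_of_lt hk).symm
    · intro u a ha
      obtain ⟨g, hg, e⟩ := (mV a).1 ha
      exact (mV _).2 ⟨u * g * u⁻¹, hQ.conj_mem g hg u, fun y => by rw [sm, e, mul_smul, mul_smul]⟩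
    · intro u hu a ha
      have e : u⁻¹ • (Quotient.mk _ y0 : orbitRel.Quotient Q Y) = Quotient.mk _ y0 :=
        congrArg (fun π : Equiv.Perm (orbitRel.Quotient Q Y) => π (Quotient.mk _ y0))
          (MonoidHom.mem_ker.1 (inv_mem hu))
      obtain ⟨h, hh, e2⟩ := (rel_iff Y Q _ _).1 ((smB _ _).symm.trans e)
      have ha' : a.1 y0 = y0 := ha
      change (u • a).1 y0 = y0
      rw [sm, e2, a.2.2 h hh, ha', ← e2, smul_inv_smul]
    · intro e
      have : (⟨_, inA g0 hg0⟩ : AA Y Q) ∈ stabilizer (AA Y Q) y0 := by rw [e]; trivial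
      exact hy0 this
    · intro a
      obtain ⟨g, hg, e⟩ := a.2.1 y0
      refine ⟨⟨_, inA g hg⟩, (mV _).2 ⟨g, hg, fun _ => rfl⟩, ?_⟩
      change g⁻¹ • a.1 y0 = y0
      rw [e, inv_smul_smul]
  refine ⟨{ carrier := {u | ∃ a ∈ M, ∀ b : orbitRel.Quotient Q Y,
              u • Quotient.out (u⁻¹ • b) = a.1 (Quotient.out b)}
            one_mem' := ⟨1, one_mem _, fun b => by rw [inv_one, one_smul, one_smul]; rfl⟩
            mul_mem' := ?_
            inv_mem' := ?_ }, fun u hu => ⟨1, one_mem _, fun b => ?_⟩, fun u => ?_, fun hle => ?_⟩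
  · rintro u w ⟨a, ha, e⟩ ⟨a', ha', e'⟩
    refine ⟨u • a' * a, mul_mem (k1 u a' ha') ha, fun b => ?_⟩
    change _ = (u • a').1 (a.1 _)
    rw [mul_inv_rev, mul_smul, mul_smul, e', sm, ← e, inv_smul_smul]
  · rintro u ⟨a, ha, e⟩
    refine ⟨u⁻¹ • a⁻¹, k1 _ _ (inv_mem ha), fun b => ?_⟩
    have := e (u • b)
    rw [inv_smul_smul] at this
    rw [sm, inv_inv, this]
    simp
  · have : u⁻¹ • b = b := by
      rw [inv_smul_eq_iff]
      exact Quotient.inductionOn b fun y => by rw [smB, hu]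
    rw [this, hu]
    rfl
  · have : ∀ b : orbitRel.Quotient Q Y, ∃ g ∈ Q,
        u • Quotient.out (u⁻¹ • b) = g • Quotient.out b := fun b =>
      (rel_iff Y Q _ _).1 (by rw [← smB, Quotient.out_eq, Quotient.out_eq, smul_inv_smul])
    choose f hf hf' using this
    obtain ⟨a, ha⟩ := glue Y Q hc f hf
    obtain ⟨v, hv, h⟩ := k2 a
    obtain ⟨g, hg, e⟩ := (mV _).1 (inv_mem hv)
    refine ⟨g, hg, _, h, fun b => ?_⟩
    change _ = (v⁻¹).1 (a.1 _)
    rw [e, ha, Quotient.out_eq, mul_inv_rev, mul_smul, mul_smul, trB _ (inv_mem hg), hf']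
  · refine k3 fun v hv => ?_
    obtain ⟨g, hg, e⟩ := (mV v).1 hv
    obtain ⟨a, ha, e'⟩ := hle hg
    have : v = a := Subtype.ext (Equiv.ext fun y => by
      obtain ⟨h, hh, e2⟩ := (rel_iff Y Q y (Quotient.out (Quotient.mk (orbitRel Q Y) y))).1
        (Quotient.out_eq _).symm
      have e3 := e' (Quotient.mk _ y)
      rw [trB _ (inv_mem hg)] at e3
      rw [e2, v.2.2 h hh, a.2.2 h hh, e, e3])
    rwa [this]

end Pool.Agent.MP_db5b97_nt.H16
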